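import Mathlib

set_option autoImplicit false

namespace Pool.Agent.H.MP_457b0e_al

open Polynomial
open scoped TensorProduct

lemma exists_P (N : ℕ) : ∃ P : ℤ[X], P.Monic ∧ ∀ i ≤ N,
    (∏ j ∈ (Finset.range (N + 1)).erase i, ((X : ℤ[X]) ^ i - X ^ j)) ∣ P := by
  have key : ∃ P : ℤ[X], P.Monic ∧ (∏ i ∈ Finset.range (N + 1),
      ∏ j ∈ (Finset.range (N + 1)).erase i, ((X : ℤ[X]) ^ i - X ^ j)) ∣ P := by
    have hm : ∀ a b : ℤ[X], (∃ P : ℤ[X], P.Monic ∧ a ∣ P) → (∃ P : ℤ[X], P.Monic ∧ b ∣ P) →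
        ∃ P : ℤ[X], P.Monic ∧ a * b ∣ P := fun a b ⟨P, h1, h2⟩ ⟨Q, h3, h4⟩ =>
      ⟨P * Q, h1.mul h3, mul_dvd_mul h2 h4⟩
    refine Finset.prod_induction _ (fun a => ∃ P : ℤ[X], P.Monic ∧ a ∣ P) hm
      ⟨1, monic_one, dvd_rfl⟩ fun i _ => ?_
    refine Finset.prod_induction _ (fun a => ∃ P : ℤ[X], P.Monic ∧ a ∣ P) hm
      ⟨1, monic_one, dvd_rfl⟩ fun j hj => ?_
    rcases lt_or_gt_of_ne (Finset.ne_of_mem_erase hj) with h | h
    · exact ⟨_, monic_X_pow_sub (n := i) (p := X ^ j) (by rw [degree_X_pow]; exact_mod_cast h), dvd_rfl⟩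
    · exact ⟨_, monic_X_pow_sub (n := j) (p := X ^ i) (by rw [degree_X_pow]; exact_mod_cast h), ⟨-1, by ring⟩⟩
  obtain ⟨P, h1, h2⟩ := key
  refine ⟨P, h1, fun i hi => dvd_trans ?_ h2⟩
  exact Finset.dvd_prod_of_mem
    (fun i => ∏ j ∈ (Finset.range (N + 1)).erase i, ((X : ℤ[X]) ^ i - X ^ j))
    (Finset.mem_range.2 (Nat.lt_succ_of_le hi))

lemma int_of_rel {W : Type} [CommRing W] {n : ℕ} (x : W) (c : Fin n → W)
    (hc : ∀ i, IsIntegral ℤ (c i)) (h : x ^ n + ∑ i : Fin n, c i * x ^ (i : ℕ) = 0) :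
    IsIntegral ℤ x := by
  let c' : Fin n → integralClosure ℤ W := fun i => ⟨c i, hc i⟩
  have hm : (X ^ n + ∑ i : Fin n, C (c' i) * X ^ (i : ℕ)).Monic :=
    monic_X_pow_add (degree_sum_fin_lt c')
  refine isIntegral_trans (A := integralClosure ℤ W) _ ⟨_, hm, ?_⟩
  rw [← h, ← aeval_def]
  simp only [map_add, map_pow, map_sum, map_mul, aeval_X, aeval_C]
  rfl

lemma exists_h (n : ℕ) (P : ℤ[X]) (hP : P.Monic) : ∃ h : ℤ[X], h.Monic ∧
    ∀ (S : Type) [CommRing S] (x : S) (c : Fin n → S), (∀ i, aeval (c i) P = 0) →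
      x ^ n + ∑ i : Fin n, c i * x ^ (i : ℕ) = 0 → aeval x h = 0 := by
  let U := MvPolynomial (Option (Fin n)) ℤ
  let I : Ideal U := Ideal.span ({(MvPolynomial.X none : U) ^ n +
    ∑ i : Fin n, MvPolynomial.X (some i) * MvPolynomial.X none ^ (i : ℕ)} ∪
    Set.range fun i : Fin n => aeval (MvPolynomial.X (some i) : U) P)
  let q := Ideal.Quotient.mkₐ ℤ I
  have hc : ∀ i : Fin n, IsIntegral ℤ (q (MvPolynomial.X (some i))) := by
    intro i
    refine ⟨P, hP, ?_⟩
    rw [← aeval_def, aeval_algHom_apply]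
    exact Ideal.Quotient.eq_zero_iff_mem.2 (Ideal.subset_span (Or.inr ⟨i, rfl⟩))
  have hx : IsIntegral ℤ (q (MvPolynomial.X none)) := by
    have : q ((MvPolynomial.X none : U) ^ n +
      ∑ i : Fin n, MvPolynomial.X (some i) * MvPolynomial.X none ^ (i : ℕ)) = 0 :=
      Ideal.Quotient.eq_zero_iff_mem.2 (Ideal.subset_span (Or.inl rfl))
    refine int_of_rel _ _ hc ?_
    rw [← this]
    simp only [map_add, map_pow, map_sum, map_mul]
  obtain ⟨h, hm, hh⟩ := hx
  refine ⟨h, hm, fun S _ x c h1 h2 => ?_⟩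
  let ψ : U →ₐ[ℤ] S := MvPolynomial.aeval fun o => o.elim x c
  have hψ : ∀ u ∈ I, ψ u = 0 := by
    intro u hu
    refine (Ideal.span_le (I := RingHom.ker ψ)).2 ?_ hu
    rintro _ (rfl | ⟨i, rfl⟩)
    · simpa [ψ, U] using h2
    · show ψ _ = 0
      rw [← aeval_algHom_apply]
      simpa [ψ, U] using h1 i
  rw [← aeval_def, aeval_algHom_apply] at hh
  have := hψ _ (Ideal.Quotient.eq_zero_iff_mem.1 hh)
  rw [← aeval_algHom_apply] at this
  simpa [ψ, U] using this

variable {D K : Type} [CommRing D] [Field K] [Algebra D K]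

def IV (D : Type) {K : Type} [CommRing D] [Field K] [Algebra D K] (g : K[X]) : Prop :=
  ∀ d : D, g.eval (algebraMap D K d) ∈ (algebraMap D K).range

lemma IV.step {g : K[X]} (hg : IV D g) (c : D) (S : Finset ℕ) :
    ∃ g' : K[X], IV D g' ∧ ∀ k, g'.coeff k =
      (∏ j ∈ S, (algebraMap D K c ^ k - algebraMap D K c ^ j)) * g.coeff k := by
  induction S using Finset.induction_on with
  | empty => exact ⟨g, hg, by simp⟩
  | insert j S hj ih =>
    obtain ⟨g', h1, h2⟩ := ih
    refine ⟨g'.comp (C (algebraMap D K c) * X) - C (algebraMap D K c ^ j) * g', fun d => ?_,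
      fun k => ?_⟩
    · rw [eval_sub, eval_comp, eval_mul, eval_C, eval_X, eval_mul, eval_C, ← map_mul, ← map_pow]
      exact sub_mem (h1 _) (mul_mem ⟨_, rfl⟩ (h1 _))
    · rw [coeff_sub, comp_C_mul_X_coeff, coeff_C_mul, h2, Finset.prod_insert hj]
      ring

lemma IV.lift {g : K[X]} (hg : IV D g) {N : ℕ} (hN : g.natDegree ≤ N) {P : ℤ[X]}
    (hP : ∀ i ≤ N, (∏ j ∈ (Finset.range (N + 1)).erase i, ((X : ℤ[X]) ^ i - X ^ j)) ∣ P) (c : D) :
    ∃ g' : D[X], g'.map (algebraMap D K) = C (algebraMap D K (aeval c P)) * g := by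
  rw [← mem_lifts, lifts_iff_coeff_lifts]
  intro i
  rw [coeff_C_mul]
  by_cases hi : i ≤ N
  swap
  · rw [coeff_eq_zero_of_natDegree_lt (by omega), mul_zero]
    exact ⟨0, map_zero _⟩
  obtain ⟨Q, hQ⟩ := hP i hi
  obtain ⟨g', h1, h2⟩ := hg.step c ((Finset.range (N + 1)).erase i)
  have e : g' = monomial i (g'.coeff i) := by
    ext k
    by_cases hk : k = i
    · simp [hk]
    · rw [coeff_monomial, if_neg (Ne.symm hk), h2]
      by_cases hk' : k ≤ N
      · rw [Finset.prod_eq_zero (i := k) (by simp [hk]; omega) (sub_self _), zero_mul]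
      · rw [coeff_eq_zero_of_natDegree_lt (by omega), mul_zero]
  obtain ⟨d, hd⟩ := h1 1
  rw [e, map_one, eval_monomial, one_pow, mul_one, h2] at hd
  refine ⟨aeval c Q * d, ?_⟩
  rw [map_mul, hd, hQ]
  simp [map_prod]
  ring

variable {A B : Type} [Ring A] [Algebra D A] [Ring B] [Algebra D B] [Algebra K B]
  [IsScalarTower D K B]

lemma exists_mu [IsDomain D] [IsIntegrallyClosed D] [IsFractionRing D K] [Module.Finite K B]
    {b : B} (hb : IsIntegral D b) :
    ∃ μ : D[X], μ.Monic ∧ μ.natDegree = Module.finrank K B ∧ aeval b μ = 0 := by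
  obtain ⟨p, hp, hpb⟩ := hb
  have hK : IsIntegral K b := IsIntegral.of_finite K b
  have hdvd : minpoly K b ∣ p.map (algebraMap D K) :=
    minpoly.dvd K b (by rw [aeval_map_algebraMap]; exact hpb)
  obtain ⟨g, hg⟩ := IsIntegrallyClosed.eq_map_mul_C_of_dvd K hp hdvd
  rw [(minpoly.monic hK).leadingCoeff, C_1, mul_one] at hg
  have hinj := IsFractionRing.injective D K
  have gm : g.Monic := monic_of_injective hinj (by rw [hg]; exact minpoly.monic hK)
  have gd : g.natDegree ≤ Module.finrank K B := by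
    rw [← natDegree_map_eq_of_injective hinj, hg]; exact minpoly.natDegree_le b
  refine ⟨X ^ (Module.finrank K B - g.natDegree) * g, (monic_X_pow _).mul gm, ?_, ?_⟩
  · rw [(monic_X_pow _).natDegree_mul gm, natDegree_X_pow]; omega
  · rw [map_mul, ← aeval_map_algebraMap K b g, hg, minpoly.aeval, mul_zero]

theorem exists_monic [IsDomain D] [IsIntegrallyClosed D] [IsFractionRing D K] [Module.Finite K B]
    (hKB : Function.Injective (algebraMap K B)) (ι : A →ₐ[D] B) (f : K[X])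
    (hf : ∀ a, IsIntegral D (aeval (ι a) f)) :
    ∃ h : ℤ[X], h.Monic ∧ ∀ a, aeval (aeval (ι a) f) (h * X) ∈ ι.range := by
  have hIV : IV D f := by
    intro d
    have := hf (algebraMap D A d)
    rw [AlgHom.commutes, IsScalarTower.algebraMap_apply D K B,
      aeval_algebraMap_apply_eq_algebraMap_eval, isIntegral_algebraMap_iff hKB] at this
    exact IsIntegrallyClosed.algebraMap_eq_of_integral this
  have hIVp : ∀ j, IV D (f ^ j) := fun j d => by rw [eval_pow]; exact pow_mem (hIV d) j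
  set n := Module.finrank K B
  obtain ⟨P, Pm, hP⟩ := exists_P (n * f.natDegree)
  obtain ⟨h, hm, hh⟩ := exists_h n P Pm
  refine ⟨h, hm, fun a => ?_⟩
  obtain ⟨μ, μm, μd, μb⟩ := exists_mu (K := K) (hf a)
  set b := aeval (ι a) f with hb
  let 𝔞 : Ideal D[X] :=
    { carrier := {g | ∀ g' : D[X], aeval b (g' * g) ∈ ι.range}
      add_mem' := fun {x y} hx hy g' => by
        rw [mul_add, map_add]; exact add_mem (hx g') (hy g')
      zero_mem' := fun g' => by simp
      smul_mem' := fun c x hx g' => by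
        rw [smul_eq_mul, ← mul_assoc]; exact hx _ }
  have h1 : ∀ c : D, C (aeval c P) ∈ 𝔞 := by
    intro c g'
    have e : aeval b g' = aeval b (g' %ₘ μ) := (aeval_modByMonic_eq_self_of_root μb).symm
    rw [map_mul, e, aeval_C]
    have hs : aeval b (g' %ₘ μ) = ∑ j ∈ Finset.range (n + 1), (g' %ₘ μ).coeff j • b ^ j := by
      refine aeval_eq_sum_range' ?_ b
      have := natDegree_modByMonic_le g' μm
      omega
    rw [hs, Finset.sum_mul]
    refine sum_mem fun j hj => ?_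
    rw [smul_mul_assoc]
    refine Subalgebra.smul_mem _ ?_ _
    obtain ⟨g, hg⟩ := (hIVp j).lift (N := n * f.natDegree) (natDegree_pow_le.trans
      (Nat.mul_le_mul_right _ (by simpa [Nat.lt_succ_iff] using hj))) hP c
    refine ⟨aeval a g, ?_⟩
    show ι (aeval a g) = _
    rw [← aeval_algHom_apply, ← aeval_map_algebraMap K, hg, map_mul, aeval_C, map_pow, ← hb,
      ← IsScalarTower.algebraMap_apply, Algebra.commutes]
  have h2 : μ ∈ 𝔞 := fun g' => by rw [map_mul, μb, mul_zero]; exact zero_mem _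
  let q := Ideal.Quotient.mkₐ D 𝔞
  have h3 := hh (D[X] ⧸ 𝔞) (q X) (fun i => q (C (μ.coeff i))) (fun i => by
    have : q (C (aeval (μ.coeff i) P)) = 0 := Ideal.Quotient.eq_zero_iff_mem.2 (h1 _)
    rw [← this]
    exact (aeval_algHom_apply ((q.comp CAlgHom).restrictScalars ℤ) (μ.coeff i) P)) (by
    have : q μ = 0 := Ideal.Quotient.eq_zero_iff_mem.2 h2
    rw [← this]
    conv_rhs => rw [μm.as_sum, μd, Finset.sum_range]
    simp [map_sum, n])
  have h4 : q (aeval X h) = 0 := by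
    rw [← h3]; exact (aeval_algHom_apply (q.restrictScalars ℤ) X h).symm
  have h5 := (Ideal.Quotient.eq_zero_iff_mem.1 h4 : aeval (X : D[X]) h ∈ 𝔞) X
  have e := aeval_algHom_apply ((aeval b : D[X] →ₐ[D] B).restrictScalars ℤ) X (h * X)
  simp only [AlgHom.coe_restrictScalars', aeval_X] at e
  rw [e, map_mul, aeval_X, mul_comm]; exact h5

theorem integral_of_monic [Module.Finite D A] (ι : A →ₐ[D] B) (f : K[X]) (R : Subring K[X])
    (hR : ∀ g ∈ R, ∀ a, aeval (ι a) g ∈ ι.range) (hf : IsIntegral R f) (a : A) :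
    IsIntegral D (aeval (ι a) f) := by
  let e : K[X] →ₐ[D] B := (aeval (ι a) : K[X] →ₐ[K] B).restrictScalars D
  let j := Ideal.kerLiftAlg e
  have ji : Function.Injective j := Ideal.kerLiftAlg_injective e
  let q := Ideal.Quotient.mkₐ D (RingHom.ker e)
  have hj : ∀ g, j (q g) = aeval (ι a) g := fun g => rfl
  have hint : ∀ g : R, IsIntegral D (q g) := by
    intro g
    obtain ⟨a', ha'⟩ := hR g g.2 a
    rw [← isIntegral_algHom_iff j ji, hj, ← ha']
    exact (IsIntegral.of_finite D a').map ι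
  rw [← hj, isIntegral_algHom_iff j ji]
  obtain ⟨p, pm, hp⟩ := hf
  let ρ : R →+* integralClosure D (K[X] ⧸ RingHom.ker e) :=
    (q.toRingHom.comp R.subtype).codRestrict (integralClosure D _).toSubring hint
  refine isIntegral_trans (A := integralClosure D (K[X] ⧸ RingHom.ker e)) _ ⟨p.map ρ, pm.map ρ, ?_⟩
  rw [eval₂_map]
  have := congrArg q hp
  rw [map_zero] at this
  rw [← this]
  exact (hom_eval₂ p (algebraMap R K[X]) q.toRingHom f).symm

theorem monic_of_integral [IsDomain D] [IsIntegrallyClosed D] [IsFractionRing D K]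
    [Module.Finite K B] (hKB : Function.Injective (algebraMap K B)) (ι : A →ₐ[D] B) (f : K[X])
    (R : Subring K[X]) (hR : ∀ g, (∀ a, aeval (ι a) g ∈ ι.range) → g ∈ R)
    (hf : ∀ a, IsIntegral D (aeval (ι a) f)) : IsIntegral R f := by
  obtain ⟨h, hm, hh⟩ := exists_monic hKB ι f hf
  have hmem : aeval f (h * X) ∈ R := by
    refine hR _ fun a => ?_
    have e := aeval_algHom_apply ((aeval (ι a) : K[X] →ₐ[K] B).restrictScalars ℤ) f (h * X)
    simp only [AlgHom.coe_restrictScalars'] at e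
    rw [← e]; exact hh a
  refine IsIntegral.of_aeval_monic (p := (h * X).map (Int.castRingHom R))
    ((hm.mul monic_X).map _) ?_ ?_
  · rw [(hm.mul monic_X).natDegree_map, hm.natDegree_mul monic_X]
    simp
  · rw [aeval_def, eval₂_map, Subsingleton.elim (RingHom.comp _ _) (algebraMap ℤ K[X])]
    exact isIntegral_algebraMap (x := (⟨_, hmem⟩ : R))

end Pool.Agent.H.MP_457b0e_al
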